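import Pool.Agent.Lib.MP_6d445e_gt.Iface

/-!
# NXT: the next entry function of the Miller real
-/

universe u

open Filter

namespace Pool.Agent.Lib.MP_6d445e_gt.H47

open Pool.Agent.Lib.MP_6d445e_gt

/-- A strictly increasing list with entries at most `n` has length at most `n + 1`. -/
theorem inc_length {t : List ℕ} (h : Inc t) {n : ℕ} (hn : ∀ i ∈ t, i ≤ n) : t.length ≤ n + 1 := by
  have h1 : t.Nodup := List.Pairwise.imp (fun hab => ne_of_lt hab) h
  have h2 : t.toFinset ⊆ Finset.range (n + 1) := by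
    intro i hi
    rw [List.mem_toFinset] at hi
    exact Finset.mem_range.2 (Nat.lt_succ_of_le (hn i hi))
  have h3 := Finset.card_le_card h2
  rwa [List.toFinset_card_of_nodup h1, Finset.card_range] at h3

theorem uniq_aux {t t' : List ℕ} {k k' n : ℕ} (ht' : ∀ i ∈ t', i ≤ n) (hk : n < k)
    (h : (t ++ [k]) <+: (t' ++ [k'])) : k = k' := by
  rw [List.prefix_concat_iff] at h
  rcases h with h | h
  · have := List.append_inj' h rfl
    simpa using this.2
  · have h1 : k ∈ t' := h.subset (by simp)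
    exact absurd (ht' k h1) (by omega)

/-- The combinatorial core: the set of lists is the set of initial segments of an infinite strictly
increasing sequence. -/
theorem core (D : Set (List ℕ)) (h0 : [] ∈ D) (hs : ∀ t ∈ D, ∃ k, t ++ [k] ∈ D)
    (hc : ∀ t ∈ D, ∀ t' ∈ D, Cmp t t') (hi : ∀ t ∈ D, Inc t) (n : ℕ) :
    ∃! k, ∃ t : List ℕ, ((∀ i ∈ t, i ≤ n) ∧ n < k) ∧ t ++ [k] ∈ D := by
  classical
  refine existsUnique_of_exists_of_unique ?_ ?_
  · by_contra hcon
    push Not at hcon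
    have step : ∀ m : ℕ, ∃ t ∈ D, t.length = m ∧ ∀ i ∈ t, i ≤ n := by
      intro m
      induction m with
      | zero => exact ⟨[], h0, rfl, by simp⟩
      | succ m ih =>
        obtain ⟨t, htD, hl, hn⟩ := ih
        obtain ⟨k, hk⟩ := hs t htD
        have hkn : k ≤ n := by
          by_contra hlt
          exact hcon k t ⟨hn, not_le.1 hlt⟩ hk
        refine ⟨t ++ [k], hk, by simp [hl], ?_⟩
        intro i hi'
        rw [List.mem_append, List.mem_singleton] at hi'
        rcases hi' with h | h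
        · exact hn i h
        · rw [h]; exact hkn
    obtain ⟨t, htD, hl, hn⟩ := step (n + 2)
    have := inc_length (hi t htD) hn
    omega
  · rintro k k' ⟨t, ⟨ht, hk⟩, htD⟩ ⟨t', ⟨ht', hk'⟩, htD'⟩
    rcases hc _ htD _ htD' with h | h
    · exact uniq_aux ht' hk h
    · exact (uniq_aux ht hk' h).symm

/-- NXT. -/
theorem nxt (h1 : NdStatement.{u}) : NxtStatement.{u} := by
  intro A _
  obtain ⟨-, hnil, -, hdis, hsup, hinc, -, -⟩ := h1 A
  have e1 : ∀ᶠ h in ae (MC A), ∀ t : List ℕ, (ND t : MC A) ∈ h → ∃ k, (ND (t ++ [k]) : MC A) ∈ h := by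
    refine ae_all fun t => ?_
    filter_upwards [ae_iSup fun k => (ND (t ++ [k]) : MC A)] with h hh ht
    rw [← hsup t] at hh
    exact hh.1 ht
  have e2 : ∀ᶠ h in ae (MC A), ∀ n k : ℕ, (Pool.Agent.Lib.MP_6d445e_gt.nxt n k : MC A) ∈ h →
      ∃ t : List ℕ, ((∀ i ∈ t, i ≤ n) ∧ n < k) ∧ (ND (t ++ [k]) : MC A) ∈ h := by
    refine ae_all fun n => ae_all fun k => ?_
    filter_upwards [ae_iSup fun t : List ℕ => ⨆ _ : (∀ i ∈ t, i ≤ n) ∧ n < k, (ND (t ++ [k]) : MC A),
      ae_all fun t : List ℕ => ae_iSup fun _ : (∀ i ∈ t, i ≤ n) ∧ n < k =>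
        (ND (t ++ [k]) : MC A)] with h ha hb hn
    obtain ⟨t, ht⟩ := ha.1 hn
    obtain ⟨hp, hm⟩ := (hb t).1 ht
    exact ⟨t, hp, hm⟩
  filter_upwards [e1, e2] with h g1 g2 n
  have hcore := core {t | (ND t : MC A) ∈ h} (by
      show (ND [] : MC A) ∈ h
      rw [hnil]; exact h.mem_top) g1 (by
      intro t ht t' ht'
      by_contra hcmp
      have h3 : (ND t ⊓ ND t' : MC A) ∈ h := h.mem_inf.2 ⟨ht, ht'⟩
      rw [hdis t t' hcmp] at h3
      exact h.bot h3) (by
      intro t ht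
      by_contra hni
      have h3 : (ND t : MC A) ∈ h := ht
      rw [hinc t hni] at h3
      exact h.bot h3) n
  obtain ⟨k, ⟨t, ht, htD⟩, huniq⟩ := hcore
  refine ⟨k, ?_, ?_⟩
  · exact h.mono (le_iSup_of_le t (le_iSup_of_le ht le_rfl)) htD
  · intro k' hk'
    exact huniq k' (g2 n k' hk')

end Pool.Agent.Lib.MP_6d445e_gt.H47
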